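import Pool.Agent.TH133.DefsSq
import Mathlib.Data.Finsupp.Basic
import Mathlib.Algebra.BigOperators.Finsupp.Basic

/-!
# Polynomial identities for correspondences on surfaces: definitions
-/

open CategoryTheory AlgebraicGeometry

universe u v w

namespace Pool.Agent.TH629.BC

open Pool.Agent.H914 Pool.Agent.H914.VarClass Pool.Agent.H914.VarClass.Obj Pool.Agent.W492.BB
  Pool.Agent.W550.Corr Pool.Agent.TH133

variable {k : Type u} [Field k] {𝒱 : VarClass k} {C : TheoryData.{u, v, 0} 𝒱 ℚ}

/-- The result of applying the self-correspondences in the list `L`, one after the other and from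
the head of the list on, to `x`. -/
noncomputable def run (C : TheoryData.{u, v, 0} 𝒱 ℚ) {U : 𝒱.Obj} (L : List (C.A (U.prod U)))
    (x : C.A U) : C.A U :=
  L.foldl (fun a Γ => C.act Γ a) x

/-- The value of the letter `(v, b)` for the values `X` of the variables: `X v` if `b = false`, and
the transpose of `X v` if `b = true`. -/
noncomputable def letter (C : TheoryData.{u, v, 0} 𝒱 ℚ) {U : 𝒱.Obj} {ν : Type}
    (X : ν → C.A (U.prod U)) (v : ν × Bool) : C.A (U.prod U) :=
  if v.2 = true then tp C (X v.1) else X v.1

/-- The polynomial `p = ∑ p(w) w`, a linear combination of words `w` in the variables `z_i`, `i : ι`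
(`Sum.inl i`), and `y_j`, `j : κ` (`Sum.inr j`), and in their transposes (the letters `(v, true)`), is
an identity for correspondences on surfaces: for each surface `U`, all homologically trivial
`Z_i ∈ CH^2(U × U)` and all `P_j ∈ CH^2(U × U)`, the correspondence `p(Z, P)` acts as zero on the
kernel of the Albanese map of `U`. -/
def IsIdentity (H : WeilTheoryData.{u, v, 0} C ℂ) {ι κ : Type}
    (p : List ((ι ⊕ κ) × Bool) →₀ ℚ) : Prop :=
  ∀ U : 𝒱.Obj, U.dim = 2 → ∀ (Z : ι → C.A (U.prod U)) (P : κ → C.A (U.prod U)),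
    (∀ i, C.Deg 2 (Z i) ∧ H.cl (Z i) = 0) → (∀ j, C.Deg 2 (P j)) →
    ∀ x : C.A U, AlbaneseKer H x →
      (p.sum fun w a => a • run C (w.map (letter C (Sum.elim Z P))) x) = 0

/-- The products of `e` homologically trivial elements of `CH^2(S × S)` act as zero on the kernel of
the Albanese map of `S`, for all surfaces `S`. -/
def ProductsVanish (H : WeilTheoryData.{u, v, 0} C ℂ) (e : ℕ) : Prop :=
  ∀ S : 𝒱.Obj, S.dim = 2 → ∀ L : List (C.A (S.prod S)), L.length = e →
    (∀ Z ∈ L, C.Deg 2 Z ∧ H.cl Z = 0) → ∀ x : C.A S, AlbaneseKer H x → run C L x = 0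

/-- The number of the letters of the word `w` which are variables `z_i` or their transposes. -/
def zCount {ι κ : Type} (w : List ((ι ⊕ κ) × Bool)) : ℕ :=
  w.countP fun v => v.1.isLeft

/-- The number `e` is the smallest number of letters `z_i` and transposes of `z_i` in a word which
occurs in `p` with non-zero coefficient. -/
def HasOrder {ι κ : Type} (p : List ((ι ⊕ κ) × Bool) →₀ ℚ) (e : ℕ) : Prop :=
  (∃ w ∈ p.support, zCount w = e) ∧ ∀ w ∈ p.support, e ≤ zCount w

end Pool.Agent.TH629.BC
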