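import Pool.Agent.TH133.DefsSq

/-!
# Correspondences and involutions of surfaces: definitions
-/

open CategoryTheory AlgebraicGeometry

universe u v w

namespace Pool.Agent.TH629.BC

open Pool.Agent.H914 Pool.Agent.H914.VarClass Pool.Agent.H914.VarClass.Obj Pool.Agent.W492.BB
  Pool.Agent.W550.Corr Pool.Agent.TH133

variable {k : Type u} [Field k] {𝒱 : VarClass k} {C : TheoryData.{u, v, 0} 𝒱 ℚ}

/-- Complete intersections of dimension two in `S × S` which are invariant under the exchange of the
factors: for each surface `S` there are a surface `U` with an involution `τ`, a morphism `f : U → S`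
and a divisor class `h` on `S` with non-zero self-intersection number such that the image
`(f, f τ)_* [U]` in `CH^2(S × S)` is `(h × S + S × h)^2`. (Take `h` very ample, and for `U` the
intersection of two general members of the linear system of the divisors in the class
`h × S + S × h` which are defined by symmetric tensors. This linear system has no base points and
its morphism is finite, so `U` is smooth and connected by the theorems of Bertini.) -/
def HasSymmetricSections (C : TheoryData.{u, v, 0} 𝒱 ℚ) : Prop :=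
  ∀ S : 𝒱.Obj, S.dim = 2 → ∃ (U : 𝒱.Obj) (f : U ⟶ S) (τ : U ⟶ U) (h : C.A S) (m : ℚ),
    U.dim = 2 ∧ τ ≫ τ = 𝟙 U ∧ C.Deg 1 h ∧ m ≠ 0 ∧ HasDegree C (h * h) m ∧
    C.down (Obj.lift f (τ ≫ f)) 1 = (C.up (fst S S) h + C.up (snd S S) h) ^ 2

/-- For all surfaces `U`, all involutions `τ` of `U` and all homologically trivial
`Z ∈ CH^2(U × U)`, the actions of `Z` and `τ` on the kernel of the Albanese map of `U` commute. -/
def CommuteWithInvolutions (H : WeilTheoryData.{u, v, 0} C ℂ) : Prop :=
  ∀ (U : 𝒱.Obj) (τ : U ⟶ U), U.dim = 2 → τ ≫ τ = 𝟙 U → ∀ Z : C.A (U.prod U), C.Deg 2 Z →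
    H.cl Z = 0 → ∀ x : C.A U, AlbaneseKer H x → C.act Z (C.up τ x) = C.up τ (C.act Z x)

/-- For all surfaces `U`, all involutions `τ` of `U` and all homologically trivial
`Z ∈ CH^2(U × U)`, `Z_*` maps the `τ`-invariant elements of the kernel of the Albanese map of `U` to
`τ`-invariant elements. -/
def PreserveInvariants (H : WeilTheoryData.{u, v, 0} C ℂ) : Prop :=
  ∀ (U : 𝒱.Obj) (τ : U ⟶ U), U.dim = 2 → τ ≫ τ = 𝟙 U → ∀ Z : C.A (U.prod U), C.Deg 2 Z →
    H.cl Z = 0 → ∀ x : C.A U, AlbaneseKer H x → C.up τ x = x → C.up τ (C.act Z x) = C.act Z x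

/-- For all morphisms `f : U → S` of surfaces and all homologically trivial `Z ∈ CH^2(U × U)`, `Z_*`
maps the pull-back under `f` of the kernel of the Albanese map of `S` into itself. -/
def PreservePullbacks (H : WeilTheoryData.{u, v, 0} C ℂ) : Prop :=
  ∀ (U S : 𝒱.Obj) (f : U ⟶ S), U.dim = 2 → S.dim = 2 → ∀ Z : C.A (U.prod U), C.Deg 2 Z →
    H.cl Z = 0 → ∀ x : C.A S, AlbaneseKer H x → ∃ y : C.A S, AlbaneseKer H y ∧
      C.act Z (C.up f x) = C.up f y

/-- The cycle `Z` is equal to `ε` times its transpose, and `(τ × τ)^* Z = -Z` for some involution `τ`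
of `U` (that is, `Z` and `τ` anticommute as correspondences). -/
def IsSkew (C : TheoryData.{u, v, 0} 𝒱 ℚ) (ε : ℚ) (U : 𝒱.Obj) (Z : C.A (U.prod U)) : Prop :=
  tp C Z = ε • Z ∧ ∃ τ : U ⟶ U, τ ≫ τ = 𝟙 U ∧ C.up (prodMap τ τ) Z = -Z

end Pool.Agent.TH629.BC
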