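import Pool.Agent.TH629.BC.PI
import Pool.Agent.TH629.BC.DefsInv

/-!
# Correspondences and involutions of surfaces
-/

open CategoryTheory AlgebraicGeometry

universe u v w

namespace Pool.Agent.TH629.BC

open Pool.Agent.H914 Pool.Agent.H914.VarClass Pool.Agent.H914.VarClass.Obj Pool.Agent.W492.BB
  Pool.Agent.W550.Corr Pool.Agent.TH133

set_option linter.unusedSectionVars false

variable {k : Type u} [Field k] {𝒱 : VarClass k} {C : TheoryData.{u, v, 0} 𝒱 ℚ}
  [hC : IsChowProj C] {H : WeilTheoryData.{u, v, 0} C ℂ} [hH : IsWeilProj H]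
  {X Y Z W U S T : 𝒱.Obj}

include hC hH

/-- The orthogonality of the projections of a complete intersection. -/
lemma orth_of_section {t : C.A (S.prod S)} (ht : IsTranscendental H t) (hU : U.dim = 2)
    (hS : S.dim = 2) {f g : U ⟶ S} {h h' : C.A S} (hh : C.Deg 1 h)
    (hUc : C.push (Obj.lift f g) 1 = (C.pull (fst S S) h + C.pull (snd S S) h') ^ 2) {x : C.A S}
    (hx : AlbaneseKer H x) : C.push g (C.pull f x) = 0 := by
  have h1 := trans_section_trans ht ht hS hS (h' := h') hh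
  rw [← hUc, ← cograph_comp_graph] at h1
  have h2 : C.act t (C.push g (C.pull f x)) = 0 := by
    have h3 : C.act (C.comp (C.comp t (C.comp (C.cograph f) (C.graph g))) t) x = 0 := by
      rw [h1]; exact C.act_zero x
    rw [C.act_comp, C.act_comp, C.act_comp, C.act_graph, C.act_cograph,
      ht.albanese x hx] at h3
    exact h3
  rwa [ht.albanese _ (ak_push hU hS (ak_pull hU hS hx))] at h2

/-- The surface with an involution attached to a surface. -/
lemma exists_inv {D : HodgeData H} (hD : HasSurfaceTheory D) (hI : HasSymmetricSections C)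
    (hS : S.dim = 2) : ∃ (U : 𝒱.Obj) (f : U ⟶ S) (τ : U ⟶ U) (m : ℚ), U.dim = 2 ∧
      τ ≫ τ = 𝟙 U ∧ m ≠ 0 ∧ (∀ y : C.A S, C.push f (C.pull f y) = m • y) ∧
      (∀ y : C.A S, C.push (τ ≫ f) (C.pull (τ ≫ f) y) = m • y) ∧
      (∀ x : C.A S, AlbaneseKer H x → C.push (τ ≫ f) (C.pull f x) = 0) ∧
      (∀ x : C.A S, AlbaneseKer H x → C.push f (C.pull (τ ≫ f) x) = 0) := by
  obtain ⟨U, f, τ, h, m, hU, hτ, hh, hm, hd, hUc⟩ := hI S hS
  obtain ⟨t, ht⟩ := hD.transcendental S hS
  have hUc' : C.push (Obj.lift (τ ≫ f) f) 1 = (C.pull (fst S S) h + C.pull (snd S S) h) ^ 2 := by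
    have e1 : Obj.lift (τ ≫ f) f = Obj.lift f (τ ≫ f) ≫ sw S S := by
      apply prod_ext <;> simp [sw, comp_lift]
    have e2 : C.push (Obj.lift f (τ ≫ f)) 1 =
      (C.pull (fst S S) h + C.pull (snd S S) h) ^ 2 := hUc
    rw [e1, C.push_comp, e2, ← tp_eq_push, tp, map_pow, map_add, ← C.pull_comp,
      ← C.pull_comp]
    have e3 : sw S S ≫ fst S S = snd S S := lift_fst _ _
    have e4 : sw S S ≫ snd S S = fst S S := lift_snd _ _
    rw [e3, e4, add_comm]
  refine ⟨U, f, τ, m, hU, hτ, hm, ?_, ?_, fun x hx => orth_of_section ht hU hS hh hUc hx,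
    fun x hx => orth_of_section ht hU hS hh hUc' hx⟩
  · intro y
    have h1 := push_one_of_section hS hh hd hUc
    rw [← mul_one (C.pull f y), C.proj_left, h1, mul_smul_comm, mul_one]
  · intro y
    have h1 := push_one_of_section hS hh hd hUc'
    rw [← mul_one (C.pull (τ ≫ f) y), C.proj_left, h1, mul_smul_comm, mul_one]

omit hH in
lemma albaneseKer_add' {a b : C.A S} (ha : AlbaneseKer H a) (hb : AlbaneseKer H b) :
    AlbaneseKer H (a + b) := by
  refine ⟨⟨Submodule.add_mem _ ha.1.1 hb.1.1, ?_⟩, fun B Γ hB hΓ => ?_⟩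
  · rw [map_add, ha.1.2, hb.1.2, add_zero]
  · rw [act_map_add, ha.2 B Γ hB hΓ, hb.2 B Γ hB hΓ, add_zero]

omit hH in
lemma albaneseKer_smul (q : ℚ) {a : C.A S} (ha : AlbaneseKer H a) : AlbaneseKer H (q • a) := by
  refine ⟨⟨Submodule.smul_mem _ _ ha.1.1, cl_smul_zero q ha.1.2⟩, fun B Γ hB hΓ => ?_⟩
  rw [act_map_smul, ha.2 B Γ hB hΓ, smul_zero]

omit hH in
lemma graph_comp_eq (f : X ⟶ Y) (Δ : C.A (Y.prod Z)) :
    C.comp (C.graph f) Δ = C.pull (prodMap f (𝟙 Z)) Δ := by
  rw [TheoryData.comp, TheoryData.graph, C.base_fst, ← C.proj_left, ← C.push_comp, map_one,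
    mul_one, ← C.pull_comp]
  have e1 : prodMap (Obj.lift (𝟙 X) f) (𝟙 Z) ≫ t13 X Y Z = 𝟙 _ := by
    apply prod_ext <;> simp [t13]
  have e2 : prodMap (Obj.lift (𝟙 X) f) (𝟙 Z) ≫ t23 X Y Z = prodMap f (𝟙 Z) := by
    apply prod_ext <;> simp [t23]
  rw [e1, e2, C.push_id]

omit hH in
lemma comp_cograph_eq (Γ : C.A (Z.prod Y)) (g : X ⟶ Y) :
    C.comp Γ (C.cograph g) = C.pull (prodMap (𝟙 Z) g) Γ := by
  have h := congrArg (tp C) (graph_comp_eq (C := C) g (tp C Γ))
  rw [tp_comp C (ch_comm C), tp_tp, tp_graph] at h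
  rw [h, tp, tp, ← C.pull_comp, ← C.pull_comp]
  have e1 : (sw Z X ≫ prodMap g (𝟙 Z)) ≫ sw Y Z = prodMap (𝟙 Z) g := by
    apply prod_ext <;> simp [sw, prodMap, comp_lift]
  rw [e1]

omit hH in
lemma sand_eq (f g : U ⟶ S) (W : C.A (S.prod S)) : sand C f g W = C.pull (prodMap f g) W := by
  rw [sand, graph_comp_eq, comp_cograph_eq, ← C.pull_comp]
  have e1 : prodMap (𝟙 U) g ≫ prodMap f (𝟙 S) = prodMap f g := by
    apply prod_ext <;> simp [prodMap, comp_lift]
  rw [e1]

omit hH in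
lemma pull_sand (τ : U ⟶ U) (f g : U ⟶ S) (W : C.A (S.prod S)) :
    C.pull (prodMap τ τ) (sand C f g W) = sand C (τ ≫ f) (τ ≫ g) W := by
  rw [sand_eq, sand_eq, ← C.pull_comp]
  have e1 : prodMap τ τ ≫ prodMap f g = prodMap (τ ≫ f) (τ ≫ g) := by
    apply prod_ext <;> simp [prodMap, comp_lift]
  rw [e1]

/-- The vanishing for all homologically trivial correspondences. -/
lemma vanish_of_products (h : ProductsVanish H 1) (hU : U.dim = 2) {Z : C.A (U.prod U)}
    (hZ : C.Deg 2 Z) (hZ0 : H.cl Z = 0) {x : C.A U} (hx : AlbaneseKer H x) : C.act Z x = 0 :=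
  h U hU [Z] rfl (by simpa using ⟨hZ, hZ0⟩) x hx

lemma products_of_vanish (h : ∀ S : 𝒱.Obj, S.dim = 2 → ∀ W : C.A (S.prod S), C.Deg 2 W →
    H.cl W = 0 → ∀ x : C.A S, AlbaneseKer H x → C.act W x = 0) : ProductsVanish H 1 := by
  intro S hS L hL hL0 x hx
  obtain ⟨Z, rfl⟩ := List.length_eq_one_iff.1 hL
  have hZ := hL0 Z (by simp)
  exact h S hS Z hZ.1 hZ.2 x hx

/-- Bloch's conjecture and the vanishing for all homologically trivial correspondences which are
`ε` times their transpose. -/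
lemma bloch_of_sign {D : HodgeData H} (hD : HasSurfaceTheory D) {ε : ℚ} (hε : ε = 1 ∨ ε = -1)
    (h : VanishFor H fun _ Z => tp C Z = ε • Z) : BlochSurfaces D := by
  rcases hε with rfl | rfl
  · refine ((bloch_sq_tfae hD).out 0 2).2 fun U hU Z hZ hZ0 hZt x hx => ?_
    exact h U hU Z hZ hZ0 (by
      change tp C Z = (1 : ℚ) • Z
      rw [one_smul]
      exact hZt) x hx
  · -- the identity `z - z^t`
    set a : List ((Unit ⊕ Unit) × Bool) := [(Sum.inl (), false)] with ha
    set b : List ((Unit ⊕ Unit) × Bool) := [(Sum.inl (), true)] with hb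
    have hab : a ≠ b := by simp [ha, hb]
    set p : List ((Unit ⊕ Unit) × Bool) →₀ ℚ := Finsupp.single a 1 + Finsupp.single b (-1) with hp
    have hpa : p a = 1 := by
      rw [hp, Finsupp.add_apply, Finsupp.single_eq_same, Finsupp.single_apply, if_neg hab.symm,
        add_zero]
    have hsupp : ∀ w ∈ p.support, w = a ∨ w = b := by
      intro w hw
      by_contra hne
      push Not at hne
      rw [Finsupp.mem_support_iff] at hw
      apply hw
      rw [hp, Finsupp.add_apply, Finsupp.single_apply, Finsupp.single_apply,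
        if_neg hne.1.symm, if_neg hne.2.symm, add_zero]
    have hord : HasOrder p 1 := by
      refine ⟨⟨a, ?_, rfl⟩, fun w hw => ?_⟩
      · rw [Finsupp.mem_support_iff, hpa]
        exact one_ne_zero
      · rcases hsupp w hw with rfl | rfl <;> exact le_of_eq rfl
    refine (bloch_iff_identity hD hord).2 fun U hU Z P hZ hP x hx => ?_
    have h1 : ∀ w : List ((Unit ⊕ Unit) × Bool),
        (0 : ℚ) • run C (w.map (letter C (Sum.elim Z P))) x = 0 := fun w => zero_smul _ _
    rw [hp, Finsupp.sum_add_index' h1 (fun w r s => add_smul r s _),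
      Finsupp.sum_single_index (h1 a), Finsupp.sum_single_index (h1 b), one_smul, neg_smul,
      one_smul, ← sub_eq_add_neg]
    change C.act (letter C (Sum.elim Z P) (Sum.inl (), false)) x -
      C.act (letter C (Sum.elim Z P) (Sum.inl (), true)) x = 0
    rw [letter, letter, if_neg (by simp), if_pos rfl, ← C.act_sub]
    refine h U hU _ (Submodule.sub_mem _ (hZ ()).1 (tp_deg (hZ ()).1)) ?_ ?_ x hx
    · change H.cl (Z () - tp C (Z ())) = 0
      rw [map_sub, (hZ ()).2, tp_cl (hZ ()).2, sub_zero]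
    · change tp C (Z () - tp C (Z ())) = (-1 : ℚ) • (Z () - tp C (Z ()))
      have h2 : tp C (Z () - tp C (Z ())) = tp C (Z ()) - tp C (tp C (Z ())) :=
        map_sub (C.pull (sw U U)) _ _
      rw [h2, tp_tp, neg_smul, one_smul, neg_sub]

/-- The equivalences. -/
theorem bloch_inv_tfae {D : HodgeData H} (hD : HasSurfaceTheory D)
    (hI : HasSymmetricSections C) :
    List.TFAE [BlochSurfaces D, CommuteWithInvolutions H, PreserveInvariants H,
      PreservePullbacks H, VanishFor H (IsSkew C 1), VanishFor H (IsSkew C (-1))] := by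
  have hB := bloch_iff_products hD
  -- the key computation
  have key : ∀ (S U : 𝒱.Obj) (f : U ⟶ S) (τ : U ⟶ U) (m : ℚ) (W : C.A (S.prod S)) (x : C.A S),
      (∀ y : C.A S, C.push f (C.pull f y) = m • y) →
      C.act (sand C f (τ ≫ f) W) (C.pull f x) = C.pull (τ ≫ f) (m • C.act W x) := by
    intro S U f τ m W x hf
    rw [act_sand, hf, act_map_smul]
  have cancel : ∀ (S U : 𝒱.Obj) (f : U ⟶ S) (m : ℚ) (y : C.A S), m ≠ 0 →
      (∀ y : C.A S, C.push f (C.pull f y) = m • y) → C.pull f (m • y) = 0 → y = 0 := by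
    intro S U f m y hm hf h
    have h1 := hf (m • y)
    rw [h, map_zero, smul_smul] at h1
    exact (smul_eq_zero.1 h1.symm).resolve_left (mul_ne_zero hm hm)
  have skew : ∀ ε δ : ℚ, (ε = 1 ∨ ε = -1) → δ = -ε → VanishFor H (IsSkew C δ) →
      VanishFor H fun _ Z => tp C Z = ε • Z := by
    intro ε δ hε hδ h S hS W hW hW0 hWt x hx
    obtain ⟨U, f, τ, m, hU, hτ, hm, hf, hg, hgf, hfg⟩ := exists_inv hD hI hS
    have hττ : τ ≫ τ ≫ f = f := by rw [← Category.assoc, hτ, Category.id_comp]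
    have h1 := h U hU (sand C f (τ ≫ f) W - sand C (τ ≫ f) f W)
      (Submodule.sub_mem _ (sand_deg _ _ hU hS hW) (sand_deg _ _ hU hS hW))
      (by rw [map_sub, sand_cl _ _ hW0, sand_cl _ _ hW0, sub_zero])
      ⟨?_, τ, hτ, ?_⟩ (C.pull f x) (ak_pull hU hS hx)
    · rw [C.act_sub, key S U f τ m W x hf, act_sand, hgf x hx, TheoryData.act_map_zero, map_zero,
        sub_zero] at h1
      exact cancel S U (τ ≫ f) m _ hm hg h1
    · have h2 : ∀ a b : C.A (U.prod U), tp C (a - b) = tp C a - tp C b :=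
        fun a b => map_sub (C.pull (sw U U)) a b
      have h3 : ∀ a b : U ⟶ S, sand C a b (ε • W) = ε • sand C a b W := by
        intro a b
        have e3 : C.comp (C.graph a) (ε • W) = ε • C.comp (C.graph a) W :=
          map_smul (compL C (C.graph a)) _ _
        rw [sand, e3]
        exact LinearMap.map_smul₂ (compL C (X := U) (Y := S) (Z := U)) ε
          (C.comp (C.graph a) W) (C.cograph b)
      rw [h2, tp_sand, tp_sand, hWt, h3, h3, hδ, neg_smul, smul_sub, neg_sub]
    · change C.pull (prodMap τ τ) (sand C f (τ ≫ f) W - sand C (τ ≫ f) f W) = _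
      rw [map_sub, pull_sand, pull_sand, hττ, neg_sub]
  tfae_have 1 → 2 := by
    intro h U τ hU hτ Z hZ hZ0 x hx
    have h' := hB.1 h
    rw [vanish_of_products h' hU hZ hZ0 hx]
    have e1 : C.up τ (0 : C.A U) = 0 := map_zero (C.pull τ)
    rw [e1]
    exact vanish_of_products h' hU hZ hZ0 (ak_pull hU hU hx)
  tfae_have 2 → 3 := by
    intro h U τ hU hτ Z hZ hZ0 x hx hxτ
    rw [← h U τ hU hτ Z hZ hZ0 x hx, hxτ]
  tfae_have 3 → 1 := by
    intro h
    refine hB.2 (products_of_vanish fun S hS W hW hW0 x hx => ?_)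
    obtain ⟨U, f, τ, m, hU, hτ, hm, hf, hg, hgf, hfg⟩ := exists_inv hD hI hS
    have hττ : τ ≫ τ ≫ f = f := by rw [← Category.assoc, hτ, Category.id_comp]
    have hx1 : AlbaneseKer H (C.pull f x + C.pull (τ ≫ f) x) :=
      albaneseKer_add' (ak_pull hU hS hx) (ak_pull hU hS hx)
    have h1 := h U τ hU hτ (sand C f (τ ≫ f) W) (sand_deg _ _ hU hS hW) (sand_cl _ _ hW0)
      (C.pull f x + C.pull (τ ≫ f) x) hx1 ?_
    · have h2 : C.act (sand C f (τ ≫ f) W) (C.pull f x + C.pull (τ ≫ f) x) =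
          C.pull (τ ≫ f) (m • C.act W x) := by
        rw [act_map_add, key S U f τ m W x hf, act_sand, hfg x hx, TheoryData.act_map_zero,
          map_zero, add_zero]
      rw [h2] at h1
      have h3 : C.pull τ (C.pull (τ ≫ f) (m • C.act W x)) = C.pull (τ ≫ f) (m • C.act W x) := h1
      rw [← C.pull_comp, hττ] at h3
      have h4 := congrArg (C.push f) h3
      have hW' : AlbaneseKer H (m • C.act W x) := albaneseKer_smul m (ak_act hS hS hW hx)
      rw [hf, hfg _ hW', smul_smul] at h4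
      exact (smul_eq_zero.1 h4).resolve_left (mul_ne_zero hm hm)
    · change C.pull τ (C.pull f x + C.pull (τ ≫ f) x) = _
      rw [map_add, ← C.pull_comp, ← C.pull_comp, hττ, add_comm]
  tfae_have 1 → 4 := by
    intro h U S f hU hS Z hZ hZ0 x hx
    refine ⟨0, ak_zero, ?_⟩
    have e1 : C.up f (0 : C.A S) = 0 := map_zero (C.pull f)
    rw [e1]
    exact vanish_of_products (hB.1 h) hU hZ hZ0 (ak_pull hU hS hx)
  tfae_have 4 → 1 := by
    intro h
    refine hB.2 (products_of_vanish fun S hS W hW hW0 x hx => ?_)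
    obtain ⟨U, f, τ, m, hU, hτ, hm, hf, hg, hgf, hfg⟩ := exists_inv hD hI hS
    obtain ⟨y, hy, h1⟩ := h U S f hU hS (sand C f (τ ≫ f) W) (sand_deg _ _ hU hS hW)
      (sand_cl _ _ hW0) x hx
    have h2 : C.pull (τ ≫ f) (m • C.act W x) = C.pull f y := by
      rw [← key S U f τ m W x hf]
      exact h1
    have h3 := congrArg (C.push (τ ≫ f)) h2
    rw [hg, hgf y hy, smul_smul] at h3
    exact (smul_eq_zero.1 h3).resolve_left (mul_ne_zero hm hm)
  tfae_have 1 → 5 := fun h U hU Z hZ hZ0 _ x hx => vanish_of_products (hB.1 h) hU hZ hZ0 hx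
  tfae_have 1 → 6 := fun h U hU Z hZ hZ0 _ x hx => vanish_of_products (hB.1 h) hU hZ hZ0 hx
  tfae_have 5 → 1 := fun h => bloch_of_sign hD (Or.inr rfl)
    (skew (-1) 1 (Or.inr rfl) (by norm_num) h)
  tfae_have 6 → 1 := fun h => bloch_of_sign hD (Or.inl rfl)
    (skew 1 (-1) (Or.inl rfl) rfl h)
  tfae_finish

end Pool.Agent.TH629.BC
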