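import Mathlib.GroupTheory.ResiduallyFinite
import Mathlib.GroupTheory.GroupAction.Quotient
import Mathlib.Data.Finset.Sym

/-!
# Finite sets of elements of residually finite groups are separated by finite permutation
representations
-/

namespace Pool.Agent.TH629.BC.RFSep

/-- A finite set of elements of a residually finite group acts faithfully on a point of a finite
set. -/
theorem sep {Q : Type} [Group Q] [Group.ResiduallyFinite Q] (S : Finset Q) :
    ∃ (B : Type) (_ : Finite B) (σ : Q →* Equiv.Perm B) (b : B),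
      ∀ g ∈ S, ∀ g' ∈ S, σ g b = σ g' b → g = g' := by
  classical
  have h1 : ∀ t : Q × Q, ∃ H : Subgroup Q, H.FiniteIndex ∧ (t.1 ≠ t.2 → t.1⁻¹ * t.2 ∉ H) := by
    intro t
    by_cases ht : t.1 = t.2
    · exact ⟨⊤, inferInstance, fun h => absurd ht h⟩
    · obtain ⟨H, hH, h⟩ := Group.residuallyFinite_iff_exists_finiteIndex.1 ‹_› (t.1⁻¹ * t.2)
        (fun h => ht (eq_of_inv_mul_eq_one h))
      exact ⟨H, hH, fun _ => h⟩
  choose H hH1 hH2 using h1
  set K : Subgroup Q := ⨅ t ∈ S ×ˢ S, H t with hK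
  have hKi : K.FiniteIndex := Subgroup.finiteIndex_iInf' _ fun t _ => hH1 t
  refine ⟨Q ⧸ K, inferInstance, MulAction.toPermHom Q (Q ⧸ K), ((1 : Q) : Q ⧸ K), ?_⟩
  intro g hg g' hg' h
  by_contra hne
  have h2 : ((g * 1 : Q) : Q ⧸ K) = ((g' * 1 : Q) : Q ⧸ K) := h
  rw [mul_one, mul_one, QuotientGroup.eq] at h2
  have h3 : K ≤ H (g, g') := iInf₂_le (g, g') (Finset.mem_product.2 ⟨hg, hg'⟩)
  exact hH2 (g, g') hne (h3 h2)

end Pool.Agent.TH629.BC.RFSep
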