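import Pool.Agent.TH133.Sq
import Pool.Agent.TH629.BC.Defs
import Mathlib.LinearAlgebra.Dual.Lemmas
import Mathlib.Algebra.Polynomial.Roots

/-!
# Polynomial identities for correspondences on surfaces
-/

open CategoryTheory AlgebraicGeometry

universe u v w

namespace Pool.Agent.TH629.BC

open Pool.Agent.H914 Pool.Agent.H914.VarClass Pool.Agent.H914.VarClass.Obj Pool.Agent.W492.BB
  Pool.Agent.W550.Corr Pool.Agent.TH133

set_option linter.unusedSectionVars false

variable {k : Type u} [Field k] {𝒱 : VarClass k} {C : TheoryData.{u, v, 0} 𝒱 ℚ}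
  [hC : IsChowProj C] {H : WeilTheoryData.{u, v, 0} C ℂ} [hH : IsWeilProj H]
  {X Y Z W U S T : 𝒱.Obj}

include hC hH

lemma ak_act {Γ : C.A (S.prod T)} (hS : S.dim = 2) (hT : T.dim = 2) (hΓ : C.Deg 2 Γ) {x : C.A S}
    (hx : AlbaneseKer H x) : AlbaneseKer H (C.act Γ x) :=
  albaneseKer_act (by rw [hS, hT]) (by rw [hS]; exact_mod_cast hΓ) hx

lemma ak_pull {f : U ⟶ S} (hU : U.dim = 2) (hS : S.dim = 2) {x : C.A S}
    (hx : AlbaneseKer H x) : AlbaneseKer H (C.pull f x) := by
  rw [← C.act_cograph]
  exact albaneseKer_act (by rw [hS, hU]) (cograph_mem f) hx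

lemma ak_push {f : U ⟶ S} (hU : U.dim = 2) (hS : S.dim = 2) {x : C.A U}
    (hx : AlbaneseKer H x) : AlbaneseKer H (C.push f x) := by
  rw [← C.act_graph]
  refine albaneseKer_act (by rw [hS, hU]) ?_ hx
  have := graph_mem (C := C) f
  rw [hS, ← hU] at this
  exact this

/-- The correspondence `g^* W f_*`. -/
noncomputable def sand (C : TheoryData.{u, v, 0} 𝒱 ℚ) {U S : 𝒱.Obj} (f g : U ⟶ S)
    (W : C.A (S.prod S)) : C.A (U.prod U) :=
  C.comp (C.comp (C.graph f) W) (C.cograph g)

omit hH in
lemma act_sand (f g : U ⟶ S) (W : C.A (S.prod S)) (y : C.A U) :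
    C.act (sand C f g W) y = C.pull g (C.act W (C.push f y)) := by
  rw [sand, C.act_comp, C.act_comp, C.act_graph, C.act_cograph]

omit hH in
lemma sand_deg (f g : U ⟶ S) (hU : U.dim = 2) (hS : S.dim = 2) {W : C.A (S.prod S)}
    (hW : C.Deg 2 W) : C.Deg 2 (sand C f g W) := by
  have h2 : C.graph f ∈ C.gr (U.prod S) (U.dim + 0) := by
    have := graph_mem (C := C) f
    rwa [hS, ← hU, ← add_zero ((U.dim : ℕ) : ℤ)] at this
  have h3 : W ∈ C.gr (S.prod S) (S.dim + 0) := by rw [hS]; exact_mod_cast hW
  have h4 : C.cograph g ∈ C.gr (S.prod U) (S.dim + 0) := by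
    rw [add_zero]; exact cograph_mem g
  have h5 := comp_mem C (comp_mem C h2 h3) h4
  rw [hU] at h5
  exact_mod_cast h5

lemma sand_cl (f g : U ⟶ S) {W : C.A (S.prod S)} (hW : H.cl W = 0) :
    H.cl (sand C f g W) = 0 := by
  rw [sand, cl_comp, cl_comp, hW]
  have h1 : H.comp (H.cl (C.graph f)) (0 : H.A (S.prod S)) = 0 :=
    comp_zero H.toTheoryData (H.cl (C.graph f))
  rw [h1]
  exact zero_comp H.toTheoryData (H.cl (C.cograph g))

omit hH in
lemma act_smul' (q : ℚ) (Γ : C.A (X.prod Y)) (a : C.A X) :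
    C.act (q • Γ) a = q • C.act Γ a :=
  LinearMap.map_smul₂ (actB C) q Γ a

omit hC hH in
lemma cl_smul_zero (q : ℚ) {z : C.A X} (hz : H.cl z = 0) : H.cl (q • z) = 0 := by
  rw [Algebra.smul_def, map_mul, hz, mul_zero]

/-- Two orthogonal morphisms. -/
lemma orth_two {D : HodgeData H} (hD : HasSurfaceTheory D) (hS : S.dim = 2) :
    ∃ (U : 𝒱.Obj) (f g : U ⟶ S) (m n : ℚ), U.dim = 2 ∧ m ≠ 0 ∧ n ≠ 0 ∧
      (∀ y : C.A S, C.push f (C.pull f y) = n • y) ∧
      (∀ y : C.A S, C.push g (C.pull g y) = m • y) ∧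
      (∀ x : C.A S, AlbaneseKer H x → C.push g (C.pull f x) = 0) ∧
      (∀ x : C.A S, AlbaneseKer H x → C.push f (C.pull g x) = 0) := by
  obtain ⟨U, f, g, h, h', m, n, hU, hh, hh', hm, hn, hdm, hdn, hUc⟩ := hD.sections S S hS hS
  obtain ⟨t, ht⟩ := hD.transcendental S hS
  have hUc' : C.push (Obj.lift g f) 1 = (C.pull (fst S S) h' + C.pull (snd S S) h) ^ 2 := by
    have e1 : Obj.lift g f = Obj.lift f g ≫ sw S S := by
      apply prod_ext <;> simp [sw, comp_lift]
    have e2 : C.push (Obj.lift f g) 1 = (C.pull (fst S S) h + C.pull (snd S S) h') ^ 2 := hUc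
    rw [e1, C.push_comp, e2, ← tp_eq_push, tp, map_pow, map_add, ← C.pull_comp,
      ← C.pull_comp]
    have e3 : sw S S ≫ fst S S = snd S S := lift_fst _ _
    have e4 : sw S S ≫ snd S S = fst S S := lift_snd _ _
    rw [e3, e4, add_comm]
  have orth : ∀ (f g : U ⟶ S) (h h' : C.A S), C.Deg 1 h →
      C.push (Obj.lift f g) 1 = (C.pull (fst S S) h + C.pull (snd S S) h') ^ 2 →
      ∀ x : C.A S, AlbaneseKer H x → C.push g (C.pull f x) = 0 := by
    intro f g h h' hh hUc x hx
    have h1 := trans_section_trans ht ht hS hS (h' := h') hh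
    rw [← hUc, ← cograph_comp_graph] at h1
    have h2 : C.act t (C.push g (C.pull f x)) = 0 := by
      have h3 : C.act (C.comp (C.comp t (C.comp (C.cograph f) (C.graph g))) t) x = 0 := by
        rw [h1]; exact C.act_zero x
      rw [C.act_comp, C.act_comp, C.act_comp, C.act_graph, C.act_cograph,
        ht.albanese x hx] at h3
      exact h3
    rwa [ht.albanese _ (ak_push hU hS (ak_pull hU hS hx))] at h2
  refine ⟨U, f, g, m, n, hU, hm, hn, ?_, ?_, orth f g h h' hh hUc, orth g f h' h hh' hUc'⟩
  · intro y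
    have h1 := push_one_of_section hS hh' hdn hUc
    rw [← mul_one (C.pull f y), C.proj_left, h1, mul_smul_comm, mul_one]
  · intro y
    have h1 := push_one_of_section hS hh hdm hUc'
    rw [← mul_one (C.pull g y), C.proj_left, h1, mul_smul_comm, mul_one]

/-- Arbitrarily many orthogonal morphisms. -/
lemma orth_many {D : HodgeData H} (hD : HasSurfaceTheory D) (hS : S.dim = 2) (N : ℕ) :
    ∃ (U : 𝒱.Obj) (f : ℕ → (U ⟶ S)) (c : ℕ → ℚ), U.dim = 2 ∧ (∀ i, c i ≠ 0) ∧
      (∀ i y, C.push (f i) (C.pull (f i) y) = c i • y) ∧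
      (∀ i j, i ≤ N → j ≤ N → i ≠ j → ∀ x : C.A S, AlbaneseKer H x →
        C.push (f i) (C.pull (f j) x) = 0) := by
  induction N with
  | zero =>
    refine ⟨S, fun _ => 𝟙 S, fun _ => 1, hS, fun _ => one_ne_zero, fun i y => ?_, ?_⟩
    · rw [C.pull_id, C.push_id, one_smul]
    · intro i j hi hj hij
      omega
  | succ N ih =>
    obtain ⟨U, f, c, hU, hc, hf, ho⟩ := ih
    obtain ⟨V, a, b, m, n, hV, hm, hn, ha, hb, hab, hba⟩ := orth_two hD hU
    refine ⟨V, fun i => if i ≤ N then a ≫ f i else b ≫ f 0,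
      fun i => if i ≤ N then n * c i else m * c 0, hV, fun i => ?_, fun i y => ?_, ?_⟩
    · dsimp only
      split_ifs
      · exact mul_ne_zero hn (hc i)
      · exact mul_ne_zero hm (hc 0)
    · dsimp only
      split_ifs with h
      · rw [C.pull_comp, C.push_comp, ha, map_smul, hf, smul_smul]
      · rw [C.pull_comp, C.push_comp, hb, map_smul, hf, smul_smul]
    · intro i j hi hj hij x hx
      dsimp only
      have hx0 : ∀ l, AlbaneseKer H (C.pull (f l) x) := fun l => ak_pull hU hS hx
      split_ifs with h1 h2 h2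
      · rw [C.pull_comp, C.push_comp, ha, map_smul, ho i j h1 h2 hij x hx, smul_zero]
      · rw [C.pull_comp, C.push_comp, hba _ (hx0 0), map_zero]
      · rw [C.pull_comp, C.push_comp, hab _ (hx0 j), map_zero]
      · omega

omit hC hH in
@[simp] lemma run_nil (x : C.A U) : run C [] x = x := rfl

omit hC hH in
@[simp] lemma run_cons (Γ : C.A (U.prod U)) (L : List (C.A (U.prod U))) (x : C.A U) :
    run C (Γ :: L) x = run C L (C.act Γ x) := rfl

omit hC hH in
lemma run_append (L L' : List (C.A (U.prod U))) (x : C.A U) :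
    run C (L ++ L') x = run C L' (run C L x) := by
  rw [run, List.foldl_append]; rfl

omit hH in
lemma run_zero (L : List (C.A (U.prod U))) : run C L 0 = 0 := by
  induction L with
  | nil => rfl
  | cons Γ L ih => rw [run_cons, TheoryData.act_map_zero, ih]

lemma run_ak {L : List (C.A (U.prod U))} (hU : U.dim = 2) (hL : ∀ Γ ∈ L, C.Deg 2 Γ) {x : C.A U}
    (hx : AlbaneseKer H x) : AlbaneseKer H (run C L x) := by
  induction L generalizing x with
  | nil => exact hx
  | cons Γ L ih =>
    rw [run_cons]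
    exact ih (fun Γ hΓ => hL Γ (List.mem_cons_of_mem _ hΓ))
      (ak_act hU hU (hL Γ List.mem_cons_self) hx)

omit hH in
/-- The insertion of diagonals. -/
lemma fill {ι κ : Type} (w : List ((ι ⊕ κ) × Bool)) : ∀ L : List (C.A (S.prod S)),
    L.length = zCount w → ∃ W : ℕ → C.A (S.prod S),
      (∀ i, W i = dg C S ∨ W i ∈ L) ∧ (∀ i a b, w[i]? = some (Sum.inl a, b) → W i ∈ L) ∧
      ∀ y, run C ((List.range w.length).map W) y = run C L y := by
  induction w with
  | nil =>
    intro L hL
    have : L = [] := List.eq_nil_of_length_eq_zero (by rw [hL]; rfl)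
    subst this
    exact ⟨fun _ => dg C S, fun _ => Or.inl rfl, by simp, fun y => rfl⟩
  | cons v w ih =>
    intro L hL
    rcases v with ⟨a | b, c⟩
    · rw [zCount, List.countP_cons_of_pos (by simp)] at hL
      rcases L with _ | ⟨Z, L⟩
      · simp at hL
      obtain ⟨W, h1, h2, h3⟩ := ih L (Nat.succ.inj hL)
      refine ⟨fun i => Nat.casesOn i Z W, fun i => ?_, fun i a' b' hi => ?_, fun y => ?_⟩
      · rcases i with _ | i
        · exact Or.inr List.mem_cons_self
        · rcases h1 i with h | h
          · exact Or.inl h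
          · exact Or.inr (List.mem_cons_of_mem _ h)
      · rcases i with _ | i
        · exact List.mem_cons_self
        · exact List.mem_cons_of_mem _ (h2 i a' b' (by simpa using hi))
      · rw [List.length_cons, List.range_succ_eq_map, List.map_cons, List.map_map, run_cons,
          run_cons]
        exact h3 _
    · rw [zCount, List.countP_cons_of_neg (by simp)] at hL
      obtain ⟨W, h1, h2, h3⟩ := ih L hL
      refine ⟨fun i => Nat.casesOn i (dg C S) W, fun i => ?_, fun i a' b' hi => ?_, fun y => ?_⟩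
      · rcases i with _ | i
        · exact Or.inl rfl
        · exact h1 i
      · rcases i with _ | i
        · simp at hi
        · exact h2 i a' b' (by simpa using hi)
      · rw [List.length_cons, List.range_succ_eq_map, List.map_cons, List.map_map, run_cons]
        have : C.act (Nat.casesOn 0 (dg C S) W : C.A (S.prod S)) y = y := act_dg C y
        rw [this]
        exact h3 _

/-- The filtration of the kernel of the Albanese map by the powers of the ideal of homologically
trivial correspondences (generators). -/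
inductive Fil (H : WeilTheoryData.{u, v, 0} C ℂ) (U : 𝒱.Obj) : ℕ → C.A U → Prop
  | base (x : C.A U) : AlbaneseKer H x → Fil H U 0 x
  | step (e : ℕ) (x : C.A U) (Z : C.A (U.prod U)) : Fil H U e x → C.Deg 2 Z → H.cl Z = 0 →
      Fil H U (e + 1) (C.act Z x)

omit hC hH in
lemma Fil.exists_list {e : ℕ} {x : C.A U} (h : Fil H U e x) : ∃ L : List (C.A (U.prod U)),
    L.length = e ∧ (∀ Z ∈ L, C.Deg 2 Z ∧ H.cl Z = 0) ∧ ∃ y : C.A U, AlbaneseKer H y ∧
      x = run C L y := by
  induction h with
  | base x hx => exact ⟨[], rfl, by simp, x, hx, rfl⟩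
  | step e x Z _ hZ hZ0 ih =>
    obtain ⟨L, h1, h2, y, hy, rfl⟩ := ih
    refine ⟨L ++ [Z], by simp [h1], ?_, y, hy, ?_⟩
    · intro Z' hZ'
      rw [List.mem_append, List.mem_singleton] at hZ'
      rcases hZ' with h | rfl
      · exact h2 _ h
      · exact ⟨hZ, hZ0⟩
    · rw [run_append]; rfl

omit hH in
lemma comp_deg (hU : U.dim = 2) {Γ Δ : C.A (U.prod U)} (hΓ : C.Deg 2 Γ) (hΔ : C.Deg 2 Δ) :
    C.Deg 2 (C.comp Γ Δ) := by
  have h1 : Γ ∈ C.gr (U.prod U) (U.dim + 0) := by rw [hU]; exact_mod_cast hΓ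
  have h2 : Δ ∈ C.gr (U.prod U) (U.dim + 0) := by rw [hU]; exact_mod_cast hΔ
  have h3 := comp_mem C h1 h2
  rw [hU] at h3
  exact_mod_cast h3

lemma Fil.act (hU : U.dim = 2) {e : ℕ} {x : C.A U} (h : Fil H U e x) {P : C.A (U.prod U)}
    (hP : C.Deg 2 P) : Fil H U e (C.act P x) := by
  rcases h with ⟨x, hx⟩ | ⟨e, x, Z, hx, hZ, hZ0⟩
  · exact Fil.base _ (ak_act hU hU hP hx)
  · rw [← C.act_comp]
    refine Fil.step _ _ _ hx (comp_deg hU hZ hP) ?_
    rw [cl_comp, hZ0]
    exact zero_comp H.toTheoryData (H.cl P)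

lemma Fil.anti (hU : U.dim = 2) {e e' : ℕ} (he : e ≤ e') {x : C.A U} (h : Fil H U e' x) :
    Fil H U e x := by
  induction e', he using Nat.le_induction generalizing x with
  | base => exact h
  | succ n hn ih =>
    rcases h with _ | ⟨_, x, Z, hx, hZ, hZ0⟩
    exact ih (hx.act hU hZ)

omit hH in
lemma tp_deg {Γ : C.A (U.prod U)} (hΓ : C.Deg 2 Γ) : C.Deg 2 (tp C Γ) := tp_mem C hΓ

lemma tp_cl {Γ : C.A (U.prod U)} (hΓ : H.cl Γ = 0) : H.cl (tp C Γ) = 0 := by
  rw [cl_tp, hΓ]
  exact map_zero _

omit hH in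
lemma tp_sand (f g : U ⟶ S) (W : C.A (S.prod S)) : tp C (sand C f g W) = sand C g f (tp C W) := by
  rw [sand, tp_comp C (ch_comm C), tp_comp C (ch_comm C), tp_graph, tp_cograph, sand, comp_assoc]

lemma Fil.run {ι κ : Type} (hU : U.dim = 2) {Z : ι → C.A (U.prod U)} {P : κ → C.A (U.prod U)}
    (hZ : ∀ i, C.Deg 2 (Z i) ∧ H.cl (Z i) = 0) (hP : ∀ j, C.Deg 2 (P j))
    (w : List ((ι ⊕ κ) × Bool)) {e : ℕ} {x : C.A U} (h : Fil H U e x) :
    Fil H U (e + zCount w) (run C (w.map (letter C (Sum.elim Z P))) x) := by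
  induction w generalizing e x with
  | nil => exact h
  | cons v w ih =>
    rcases v with ⟨a | b, c⟩
    · have h0 : C.Deg 2 (letter C (Sum.elim Z P) (Sum.inl a, c)) ∧
          H.cl (letter C (Sum.elim Z P) (Sum.inl a, c)) = 0 := by
        rw [letter]
        split_ifs
        · exact ⟨tp_deg (hZ a).1, tp_cl (hZ a).2⟩
        · exact hZ a
      have h1 := ih (Fil.step e x _ h h0.1 h0.2)
      rw [List.map_cons, run_cons, zCount, List.countP_cons_of_pos (by simp)]
      rw [show e + (List.countP (fun v : (ι ⊕ κ) × Bool => v.1.isLeft) w + 1) =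
        e + 1 + zCount w by rw [zCount]; omega]
      exact h1
    · have h0 : C.Deg 2 (letter C (Sum.elim Z P) (Sum.inr b, c)) := by
        rw [letter]
        split_ifs
        · exact tp_deg (hP b)
        · exact hP b
      have h1 := ih (h.act hU h0)
      rw [List.map_cons, run_cons, zCount, List.countP_cons_of_neg (by simp)]
      exact h1

/-- Vanishing of products implies the identity. -/
theorem isIdentity_of_products {ι κ : Type} {p : List ((ι ⊕ κ) × Bool) →₀ ℚ} {e : ℕ}
    (hp : ∀ w ∈ p.support, e ≤ zCount w) (h : ProductsVanish H e) :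
    IsIdentity H p := by
  intro U hU Z P hZ hP x hx
  refine Finset.sum_eq_zero fun w hw => ?_
  have h1 := Fil.run hU hZ hP w (Fil.base x hx)
  rw [zero_add] at h1
  obtain ⟨L, h2, h3, y, hy, h4⟩ := (h1.anti hU (hp w hw)).exists_list
  change p w • BC.run C (List.map (letter C (Sum.elim Z P)) w) x = 0
  rw [h4, h U hU L h2 h3 y hy, smul_zero]

omit hC hH in
/-- Homogeneous components. -/
lemma homog {M ν : Type*} [AddCommGroup M] [Module ℚ M] (s : Finset ν) (a : ν → ℚ) (d : ν → ℕ)
    (m : ν → M) (h : ∀ t : ℚ, ∑ w ∈ s, (a w * t ^ d w) • m w = 0) (N : ℕ) :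
    ∑ w ∈ s with d w = N, a w • m w = 0 := by
  rw [← Module.forall_dual_apply_eq_zero_iff ℚ]
  intro φ
  set q : Polynomial ℚ := ∑ w ∈ s, Polynomial.C (a w * φ (m w)) * Polynomial.X ^ d w with hq
  have h1 : q = 0 := by
    apply Polynomial.funext
    intro t
    have h2 := congrArg φ (h t)
    rw [map_sum, map_zero] at h2
    rw [hq, Polynomial.eval_finsetSum, Polynomial.eval_zero, ← h2]
    refine Finset.sum_congr rfl fun w _ => ?_
    rw [Polynomial.eval_mul, Polynomial.eval_C, Polynomial.eval_pow, Polynomial.eval_X, map_smul,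
      smul_eq_mul]
    ring
  have h3 : q.coeff N = 0 := by rw [h1, Polynomial.coeff_zero]
  rw [hq, Polynomial.finsetSum_coeff] at h3
  rw [map_sum, Finset.sum_filter]
  refine Eq.trans (Finset.sum_congr rfl fun w _ => ?_) h3
  rw [Polynomial.coeff_C_mul, Polynomial.coeff_X_pow]
  by_cases hw : d w = N
  · rw [if_pos hw, if_pos hw.symm, mul_one, map_smul, smul_eq_mul]
  · rw [if_neg hw, if_neg (fun h => hw h.symm), mul_zero]

omit hC hH in
lemma letter_smul {ν : Type} (X : ν → C.A (U.prod U)) (t : ℚ) (v : ν × Bool) :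
    letter C (fun u => t • X u) v = t • letter C X v := by
  rw [letter, letter]
  split_ifs
  · exact map_smul (C.pull (sw U U)) t (X v.1)
  · rfl

omit hH in
lemma run_map_smul (L : List (C.A (U.prod U))) (t : ℚ) (x : C.A U) :
    run C L (t • x) = t • run C L x := by
  induction L generalizing x with
  | nil => rfl
  | cons Γ L ih => rw [run_cons, act_map_smul, ih, run_cons]

omit hH in
lemma run_smul {ν : Type} (X : ν → C.A (U.prod U)) (t : ℚ) (w : List (ν × Bool)) (x : C.A U) :
    run C (w.map (letter C fun u => t • X u)) x = t ^ w.length • run C (w.map (letter C X)) x := by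
  induction w generalizing x with
  | nil => simp
  | cons v w ih =>
    rw [List.map_cons, run_cons, List.map_cons, run_cons, letter_smul, act_smul', ih,
      run_map_smul, smul_smul, List.length_cons, pow_succ]

variable (H) in
/-- The span of the images of the kernel of the Albanese map under the first `a` pull-backs. -/
def low (f : ℕ → (U ⟶ S)) (a : ℕ) : Submodule ℚ (C.A U) :=
  Submodule.span ℚ {u | ∃ b < a, ∃ z : C.A S, AlbaneseKer H z ∧ u = C.pull (f b) z}

omit hC hH in
lemma pull_mem_low {f : ℕ → (U ⟶ S)} {a b : ℕ} (hb : b < a) {z : C.A S}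
    (hz : AlbaneseKer H z) : C.pull (f b) z ∈ low H f a :=
  Submodule.subset_span ⟨b, hb, z, hz, rfl⟩

omit hC hH in
lemma low_mono {f : ℕ → (U ⟶ S)} {a b : ℕ} (hab : a ≤ b) : low H f a ≤ low H f b := by
  refine Submodule.span_mono ?_
  rintro u ⟨b', hb', z', hz'⟩
  exact ⟨b', by omega, z', hz'⟩

omit hH in
lemma ak_zero : AlbaneseKer H (0 : C.A S) :=
  ⟨⟨Submodule.zero_mem _, map_zero _⟩, fun _ _ _ _ => TheoryData.act_map_zero _ _⟩

/-- The identity implies the vanishing of products. -/
theorem products_of_isIdentity {D : HodgeData H} (hD : HasSurfaceTheory D) {ι κ : Type}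
    {p : List ((ι ⊕ κ) × Bool) →₀ ℚ} {w₀ : List ((ι ⊕ κ) × Bool)} (hw₀ : w₀ ∈ p.support)
    (h : IsIdentity H p) : ProductsVanish H (zCount w₀) := by
  classical
  intro S hS L hL hL0 x hx
  obtain ⟨W, hW1, hW2, hW3⟩ := fill w₀ L hL
  obtain ⟨U, f, c, hU, hc, hf, ho⟩ := orth_many (C := C) hD hS w₀.length
  have hWd : ∀ i, C.Deg 2 (W i) := by
    intro i
    rcases hW1 i with h1 | h1
    · rw [h1]
      have := dg_mem (C := C) S
      rw [hS] at this
      exact this
    · exact (hL0 _ h1).1
  set E : ℕ → C.A (U.prod U) := fun i => sand C (f i) (f (i + 1)) ((c i)⁻¹ • W i) with hE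
  have hEd : ∀ i, C.Deg 2 (E i) := fun i =>
    sand_deg _ _ hU hS (Submodule.smul_mem _ _ (hWd i))
  have hEc : ∀ i a b, w₀[i]? = some (Sum.inl a, b) → H.cl (E i) = 0 := by
    intro i a b hi
    refine sand_cl _ _ ?_
    exact cl_smul_zero _ (hL0 _ (hW2 i a b hi)).2
  -- the action of `E i` and of its transpose
  have hEa : ∀ i < w₀.length, ∀ a ≤ w₀.length, ∀ y : C.A S, AlbaneseKer H y →
      C.act (E i) (C.pull (f a) y) = if i = a then C.pull (f (a + 1)) (C.act (W a) y) else 0 := by
    intro i hi a ha y hy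
    rw [hE]
    dsimp only
    rw [act_sand]
    split_ifs with hia
    · subst hia
      rw [hf, act_map_smul, act_smul', smul_smul, mul_inv_cancel₀ (hc i), one_smul]
    · rw [ho i a hi.le ha hia y hy, TheoryData.act_map_zero, map_zero]
  have hEt : ∀ i < w₀.length, ∀ a ≤ w₀.length, ∀ y : C.A S, AlbaneseKer H y →
      C.act (tp C (E i)) (C.pull (f a) y) ∈ low H f a := by
    intro i hi a ha y hy
    rw [hE]
    dsimp only
    rw [tp_sand, act_sand]
    by_cases hia : i + 1 = a
    · rw [hia, hf]
      refine pull_mem_low (by omega) (ak_act hS hS (tp_deg ?_) ?_)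
      · exact Submodule.smul_mem _ _ (hWd i)
      · rw [← hf, ← hia]
        exact ak_push hU hS (ak_pull hU hS hy)
    · rw [ho (i + 1) a hi ha hia y hy, TheoryData.act_map_zero, map_zero]
      exact Submodule.zero_mem _
  -- the substitution
  set F : (ι ⊕ κ) × Bool → C.A (U.prod U) := fun v =>
    ∑ i ∈ Finset.range w₀.length, if w₀[i]? = some v then E i else 0 with hF
  have hFa : ∀ (v : (ι ⊕ κ) × Bool) (a : ℕ), a ≤ w₀.length → ∀ y : C.A S, AlbaneseKer H y →
      C.act (F v) (C.pull (f a) y) =
        if w₀[a]? = some v then C.pull (f (a + 1)) (C.act (W a) y) else 0 := by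
    intro v a ha y hy
    rw [hF]
    dsimp only
    rw [act_sum]
    split_ifs with hv
    · have hal : a < w₀.length := (List.getElem?_eq_some_iff.1 hv).1
      rw [Finset.sum_eq_single a]
      · rw [if_pos hv, hEa a hal a ha y hy, if_pos rfl]
      · intro i hi hia
        split_ifs
        · rw [hEa i (Finset.mem_range.1 hi) a ha y hy, if_neg hia]
        · exact C.act_zero _
      · intro h1
        exact absurd (Finset.mem_range.2 hal) h1
    · refine Finset.sum_eq_zero fun i hi => ?_
      split_ifs with h1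
      · rw [hEa i (Finset.mem_range.1 hi) a ha y hy, if_neg]
        rintro rfl
        exact hv h1
      · exact C.act_zero _
  have hFt : ∀ (v : (ι ⊕ κ) × Bool) (a : ℕ), a ≤ w₀.length → ∀ y : C.A S, AlbaneseKer H y →
      C.act (tp C (F v)) (C.pull (f a) y) ∈ low H f a := by
    intro v a ha y hy
    have h1 : tp C (F v) = ∑ i ∈ Finset.range w₀.length,
        tp C (if w₀[i]? = some v then E i else 0) := map_sum (C.pull (sw U U)) _ _
    rw [h1, act_sum]
    refine Submodule.sum_mem _ fun i hi => ?_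
    split_ifs
    · exact hEt i (Finset.mem_range.1 hi) a ha y hy
    · have h2 : tp C (0 : C.A (U.prod U)) = 0 := map_zero (C.pull (sw U U))
      rw [h2, C.act_zero]
      exact Submodule.zero_mem _
  set V : ι ⊕ κ → C.A (U.prod U) := fun u => F (u, false) + tp C (F (u, true)) with hV
  have hVl : ∀ v : (ι ⊕ κ) × Bool, letter C V v = F v + tp C (F (v.1, !v.2)) := by
    rintro ⟨u, b⟩
    rcases b with _ | _
    · rw [letter, if_neg (by simp)]
      rfl
    · rw [letter, if_pos rfl]
      change tp C (F (u, false) + tp C (F (u, true))) = F (u, true) + tp C (F (u, false))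
      rw [tp_add, tp_tp, add_comm]
  have hlow : ∀ (v : (ι ⊕ κ) × Bool) (a : ℕ), a ≤ w₀.length → ∀ u ∈ low H f a,
      C.act (letter C V v) u ∈ low H f (a + 1) := by
    intro v a ha u hu
    have h1 : low H f a ≤ (low H f (a + 1)).comap (C.actL (letter C V v)) := by
      rw [low, Submodule.span_le]
      rintro _ ⟨b, hb, z, hz, rfl⟩
      change C.act (letter C V v) (C.pull (f b) z) ∈ low H f (a + 1)
      rw [hVl, C.act_add, hFa v b (by omega) z hz]
      refine Submodule.add_mem _ ?_ ?_
      · split_ifs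
        · exact pull_mem_low (by omega) (ak_act hS hS (hWd b) hz)
        · exact Submodule.zero_mem _
      · exact low_mono (by omega) (hFt _ b (by omega) z hz)
    exact h1 hu
  -- paths
  have path : ∀ (w : List ((ι ⊕ κ) × Bool)) (a : ℕ), a + w.length ≤ w₀.length → ∀ y : C.A S,
      AlbaneseKer H y → ∀ u ∈ low H f a, ∃ u' ∈ low H f (a + w.length),
      run C (w.map (letter C V)) (C.pull (f a) y + u) = (if w <+: w₀.drop a then
        C.pull (f (a + w.length)) (run C ((List.range' a w.length).map W) y) else 0) + u' := by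
    intro w
    induction w with
    | nil =>
      intro a ha y hy u hu
      exact ⟨u, hu, by simp⟩
    | cons v w ih =>
      intro a ha y hy u hu
      rw [List.length_cons] at ha
      have hal : a < w₀.length := by omega
      have e1 : C.act (letter C V v) (C.pull (f a) y + u) =
          (if w₀[a]? = some v then C.pull (f (a + 1)) (C.act (W a) y) else 0) +
          (C.act (tp C (F (v.1, !v.2))) (C.pull (f a) y) + C.act (letter C V v) u) := by
        rw [act_map_add]
        nth_rewrite 1 [hVl]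
        rw [C.act_add, hFa v a hal.le y hy, add_assoc]
      have hu1 : C.act (tp C (F (v.1, !v.2))) (C.pull (f a) y) + C.act (letter C V v) u ∈
          low H f (a + 1) := by
        refine Submodule.add_mem _ ?_ (hlow v a hal.le u hu)
        exact low_mono (by omega) (hFt _ a hal.le y hy)
      rw [List.map_cons, run_cons, e1]
      by_cases hv : w₀[a]? = some v
      · have hdr : w₀.drop a = v :: w₀.drop (a + 1) := by
          rw [List.drop_eq_getElem_cons hal, (List.getElem?_eq_some_iff.1 hv).2]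
        obtain ⟨u', hu', h2⟩ := ih (a + 1) (by omega) _ (ak_act hS hS (hWd a) hy) _ hu1
        rw [if_pos hv, h2, hdr]
        refine ⟨u', ?_, ?_⟩
        · rw [List.length_cons, show a + (w.length + 1) = a + 1 + w.length by omega]
          exact hu'
        · simp only [List.cons_prefix_cons, true_and, List.length_cons, List.range'_succ,
            List.map_cons, run_cons]
          rw [show a + 1 + w.length = a + (w.length + 1) by omega]
      · have e2 : (0 : C.A U) = C.pull (f (a + 1)) 0 := (map_zero _).symm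
        obtain ⟨u', hu', h2⟩ := ih (a + 1) (by omega) 0 ak_zero _ hu1
        rw [if_neg hv, if_neg]
        · nth_rewrite 1 [e2]
          rw [h2]
          refine ⟨u', ?_, ?_⟩
          · rw [List.length_cons, show a + (w.length + 1) = a + 1 + w.length by omega]
            exact hu'
          · rw [run_zero, map_zero, ite_self]
        · rintro ⟨l, hl⟩
          apply hv
          have h1 : (w₀.drop a)[0]? = some v := by rw [← hl]; rfl
          rwa [List.getElem?_drop, add_zero] at h1
  have hpush : ∀ u ∈ low H f w₀.length, C.push (f w₀.length) u = 0 := by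
    intro u hu
    have h1 : low H f w₀.length ≤ LinearMap.ker (C.push (f w₀.length)) := by
      rw [low, Submodule.span_le]
      rintro _ ⟨b, hb, z, hz, rfl⟩
      exact ho w₀.length b le_rfl hb.le (by omega) z hz
    exact h1 hu
  have hV1 : ∀ i : ι, C.Deg 2 (V (Sum.inl i)) ∧ H.cl (V (Sum.inl i)) = 0 := by
    intro i
    have hFd : ∀ b : Bool, C.Deg 2 (F (Sum.inl i, b)) ∧ H.cl (F (Sum.inl i, b)) = 0 := by
      intro b
      refine ⟨Submodule.sum_mem _ fun j _ => ?_, ?_⟩
      · split_ifs
        · exact hEd j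
        · exact Submodule.zero_mem _
      · rw [hF]
        dsimp only
        rw [map_sum]
        refine Finset.sum_eq_zero fun j _ => ?_
        split_ifs with h1
        · exact hEc j i b h1
        · exact map_zero _
    refine ⟨Submodule.add_mem _ (hFd false).1 (tp_deg (hFd true).1), ?_⟩
    rw [hV]
    dsimp only
    rw [map_add, (hFd false).2, tp_cl (hFd true).2, add_zero]
  have hV2 : ∀ i : κ, C.Deg 2 (V (Sum.inr i)) := by
    intro i
    have hFd : ∀ b : Bool, C.Deg 2 (F (Sum.inr i, b)) := by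
      intro b
      refine Submodule.sum_mem _ fun j _ => ?_
      split_ifs
      · exact hEd j
      · exact Submodule.zero_mem _
    exact Submodule.add_mem _ (hFd false) (tp_deg (hFd true))
  have h1 : ∀ t : ℚ, ∑ w ∈ p.support, (p w * t ^ w.length) •
      C.push (f w₀.length) (run C (w.map (letter C V)) (C.pull (f 0) x)) = 0 := by
    intro t
    have h2 := h U hU (fun i => t • V (Sum.inl i)) (fun i => t • V (Sum.inr i))
      (fun i => ⟨Submodule.smul_mem _ _ (hV1 i).1, cl_smul_zero _ (hV1 i).2⟩)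
      (fun i => Submodule.smul_mem _ _ (hV2 i)) (C.pull (f 0) x) (ak_pull hU hS hx)
    have hVe : (Sum.elim (fun i => t • V (Sum.inl i)) fun i => t • V (Sum.inr i)) =
        fun v => t • V v := by
      funext v
      rcases v with i | i <;> rfl
    rw [hVe] at h2
    have h3 := congrArg (C.push (f w₀.length)) h2
    rw [map_zero, Finsupp.sum, map_sum] at h3
    rw [← h3]
    refine Finset.sum_congr rfl fun w _ => ?_
    rw [run_smul, map_smul, map_smul, smul_smul]
  have h2 := homog p.support (fun w => p w) (fun w => w.length) _ h1 w₀.length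
  rw [Finset.sum_eq_single w₀] at h2
  · obtain ⟨u', hu', h3⟩ := path w₀ 0 (by simp) x hx 0 (Submodule.zero_mem _)
    rw [add_zero] at h3
    rw [h3, if_pos (by simp), map_add, zero_add, hf, ← List.range_eq_range', hW3] at h2
    rw [zero_add] at hu'
    rw [hpush u' hu', add_zero, smul_smul] at h2
    exact (smul_eq_zero.1 h2).resolve_left
      (mul_ne_zero (Finsupp.mem_support_iff.1 hw₀) (hc _))
  · intro w hw hne
    have hwl : w.length = w₀.length := (Finset.mem_filter.1 hw).2
    obtain ⟨u', hu', h3⟩ := path w 0 (by omega) x hx 0 (Submodule.zero_mem _)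
    rw [add_zero] at h3
    rw [h3, if_neg, zero_add]
    · rw [zero_add, hwl] at hu'
      rw [hpush u' hu', smul_zero]
    · intro h4
      rw [List.drop_zero] at h4
      exact hne (h4.eq_of_length hwl)
  · intro h3
    exact absurd (Finset.mem_filter.2 ⟨hw₀, rfl⟩ :
      w₀ ∈ p.support.filter fun w => w.length = w₀.length) h3

/-- The identities of given order. -/
theorem identity_iff {D : HodgeData H} (hD : HasSurfaceTheory D) {ι κ : Type}
    {p : List ((ι ⊕ κ) × Bool) →₀ ℚ} {e : ℕ} (hp : HasOrder p e) :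
    IsIdentity H p ↔ ProductsVanish H e := by
  constructor
  · intro h
    obtain ⟨w, hw, rfl⟩ := hp.1
    exact products_of_isIdentity hD hw h
  · exact isIdentity_of_products hp.2

/-- Bloch's conjecture is the case of one factor. -/
theorem bloch_iff_products {D : HodgeData H} (hD : HasSurfaceTheory D) :
    BlochSurfaces D ↔ ProductsVanish H 1 := by
  constructor
  · intro hB S hS L hL hL0 x hx
    obtain ⟨Z, rfl⟩ := List.length_eq_one_iff.1 hL
    have hZ := hL0 Z (by simp)
    refine hB S S hS hS Z hZ.1 (fun a _ => ?_) x hx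
    rw [actCoh, cl_tp, hZ.2]
    change H.act (H.pull (sw S S) 0) a = 0
    rw [map_zero]
    exact H.act_zero a
  · intro h
    refine ((bloch_sq_tfae hD).out 0 1).2 fun U hU Z hZ hZ0 _ x hx => ?_
    exact h U hU [Z] rfl (by simpa using ⟨hZ, hZ0⟩) x hx

/-- The identities of order one. -/
theorem bloch_iff_identity {D : HodgeData H} (hD : HasSurfaceTheory D) {ι κ : Type}
    {p : List ((ι ⊕ κ) × Bool) →₀ ℚ} (hp : HasOrder p 1) : BlochSurfaces D ↔ IsIdentity H p :=
  (bloch_iff_products hD).trans (identity_iff hD hp).symm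

end Pool.Agent.TH629.BC
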